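import Mathlib

/-!
Separating two perfect matchings (given as fixed point free involutions of `Fin n`) by a
nonincreasing degree sequence.
-/

set_option autoImplicit false

open Finset

namespace Pool.Agent.P.MP_cd59f5_co

open Classical in
/-- neighbours of `u` as a finset -/
noncomputable def nb {n : ℕ} (G : SimpleGraph (Fin n)) (u : Fin n) : Finset (Fin n) :=
  univ.filter fun v => G.Adj u v

theorem mem_nb {n : ℕ} (G : SimpleGraph (Fin n)) (u v : Fin n) : v ∈ nb G u ↔ G.Adj u v := by
  simp [nb]

theorem ncard_eq {n : ℕ} (G : SimpleGraph (Fin n)) (u : Fin n) :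
    (G.neighborSet u).ncard = (nb G u).card := by
  rw [← Set.ncard_coe_finset]
  congr 1
  ext v
  simp [mem_nb]

theorem exists_invol {n : ℕ} (P : Finset (Fin n)) (hP : Even P.card) :
    ∃ f : Fin n → Fin n, ∀ x ∈ P, f x ∈ P ∧ f x ≠ x ∧ f (f x) = x := by
  have hc : (⊤ : SimpleGraph (Fin n)).IsClique (P : Set (Fin n)) := fun a _ b _ h => h
  obtain ⟨M, hM, hM'⟩ := (hc.even_iff_exists_isMatching (Set.toFinite _)).mp (by simpa using hP)
  have h : ∀ x, ∃ y, x ∈ P → (M.Adj x y ∧ ∀ z, M.Adj x z → z = y) := fun x => by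
    by_cases hx : x ∈ P
    · obtain ⟨y, hy, hy'⟩ := hM' (show x ∈ M.verts by rw [hM]; exact hx)
      exact ⟨y, fun _ => ⟨hy, hy'⟩⟩
    · exact ⟨x, fun h => absurd h hx⟩
  choose f hf using h
  refine ⟨f, fun x hx => ?_⟩
  have h1 : f x ∈ P := by
    have := (hf x hx).1.snd_mem
    rw [hM] at this
    exact this
  exact ⟨h1, (hf x hx).1.ne.symm, ((hf (f x) h1).2 x (hf x hx).1.symm).symm⟩

/-- cancelling the edges between `S` and `T` -/
theorem cancel {n : ℕ} (G : SimpleGraph (Fin n)) (S T : Finset (Fin n)) :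
    ∑ s ∈ S, (nb G s).card + ∑ t ∈ T, (nb G t \ S).card
      = ∑ s ∈ S, (nb G s \ T).card + ∑ t ∈ T, (nb G t).card := by
  classical
  have h1 : ∀ s, (nb G s).card = (nb G s \ T).card + (nb G s ∩ T).card := fun s =>
    (card_sdiff_add_card_inter _ _).symm
  have h2 : ∀ t, (nb G t).card = (nb G t \ S).card + (nb G t ∩ S).card := fun s =>
    (card_sdiff_add_card_inter _ _).symm
  have h3 : ∑ s ∈ S, (nb G s ∩ T).card = ∑ t ∈ T, (nb G t ∩ S).card := by
    have e1 : ∀ s, (nb G s ∩ T).card = ∑ t ∈ T, if G.Adj s t then 1 else 0 := fun s => by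
      rw [← card_filter]; congr 1; ext v; simp [mem_nb, and_comm]
    have e2 : ∀ t, (nb G t ∩ S).card = ∑ s ∈ S, if G.Adj s t then 1 else 0 := fun s => by
      rw [← card_filter]; congr 1; ext v; simp [mem_nb, and_comm, G.adj_comm]
    simp only [e1, e2]
    exact sum_comm
  rw [sum_congr rfl fun s _ => h1 s, sum_congr rfl fun t (_ : t ∈ T) => h2 t, sum_add_distrib,
    sum_add_distrib, h3]
  ring

/-- the graph used to separate the matchings -/
def sepGraph {n : ℕ} (ν f : Fin n → Fin n) (hν : ∀ x, ν (ν x) = x) (P : Finset (Fin n))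
    (hf : ∀ x ∈ P, f x ∈ P ∧ f x ≠ x ∧ f (f x) = x) (l c a : Fin n) : SimpleGraph (Fin n) where
  Adj u v := u ≠ v ∧ ((u < c ∧ ¬ (u = l ∧ a < v ∧ c ≤ ν v)) ∨ (v < c ∧ ¬ (v = l ∧ a < u ∧ c ≤ ν u))
    ∨ v = ν u ∨ (u ∈ P ∧ v = f u))
  symm := ⟨by
    rintro u v ⟨h, h1 | h1 | h1 | h1⟩
    · exact ⟨h.symm, Or.inr (Or.inl h1)⟩
    · exact ⟨h.symm, Or.inl h1⟩
    · exact ⟨h.symm, Or.inr (Or.inr (Or.inl (by rw [h1, hν])))⟩
    · refine ⟨h.symm, Or.inr (Or.inr (Or.inr ?_))⟩
      rw [h1.2]
      exact ⟨(hf u h1.1).1, (hf u h1.1).2.2.symm⟩⟩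
  loopless := ⟨fun u h => h.1 rfl⟩

theorem main {n : ℕ} (m ν : Fin n → Fin n) (hm : ∀ x, m (m x) = x) (hm' : ∀ x, m x ≠ x)
    (hν : ∀ x, ν (ν x) = x) (hν' : ∀ x, ν x ≠ x) (i : Fin n) (hi : ∀ x < i, m x = ν x)
    (hlt : m i < ν i) :
    ∃ G : SimpleGraph (Fin n), (∀ u, G.Adj u (ν u)) ∧ (Antitone fun u => (nb G u).card) ∧
      ∀ G' : SimpleGraph (Fin n), (∀ u, G'.Adj u (m u)) →
        ¬ ∀ u, (nb G' u).card = (nb G u).card := by
  classical
  set a := m i with ha
  set b := ν i with hb
  have hνb : ν b = i := hν i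
  have hma : m a = i := hm i
  have hia : i < a := by
    rcases lt_trichotomy i a with h | h | h
    · exact h
    · exact absurd h.symm (hm' i)
    · exfalso
      have h1 := hi a h
      rw [hma] at h1
      have : ν i = a := by rw [h1, hν]
      rw [← hb] at this
      exact absurd hlt (by rw [this]; exact lt_irrefl _)
  have hνa : i < ν a := by
    rcases lt_trichotomy i (ν a) with h | h | h
    · exact h
    · exfalso
      have : ν i = a := by rw [h, hν]
      rw [← hb] at this
      exact absurd hlt (by rw [this]; exact lt_irrefl _)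
    · exfalso
      have h1 := hi _ h
      rw [hν] at h1
      have : ν a = i := by rw [← hm (ν a), h1, hma]
      exact absurd h (by rw [this]; exact lt_irrefl _)
  -- the cut point `c`
  obtain ⟨c, hc, hcmin⟩ := (univ.filter fun v => i < v ∧ i ≤ ν v).exists_min_image id
    ⟨a, by simp [hia, hνa.le]⟩
  simp only [mem_filter, mem_univ, true_and, id, and_imp] at hc hcmin
  have hca : c ≤ a := hcmin a hia hνa.le
  have hmid : ∀ v, i < v → v < c → ν v < i := fun v h1 h2 => by
    by_contra h3
    exact absurd (hcmin v h1 (not_lt.mp h3)) (not_le.mpr h2)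
  have hc0 : 0 < c.val := lt_of_le_of_lt (Nat.zero_le _) hc.1
  let l : Fin n := ⟨c.val - 1, by omega⟩
  have hlc : l.val + 1 = c.val := by simp only [l]; omega
  have hil : i ≤ l := by have := hc.1; rw [Fin.le_def]; rw [Fin.lt_def] at this; omega
  have hlc' : l < c := by rw [Fin.lt_def]; omega
  -- agreement of the matchings below `c`, except at `i`
  have hagree : ∀ s, s < c → s ≠ i → m s = ν s := fun s hs hsi => by
    rcases lt_or_gt_of_ne hsi with h | h
    · exact hi s h
    · have h1 := hi _ (hmid s h hs)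
      rw [hν] at h1
      rw [← h1, hm, h1]
  have hνc : c ≤ ν c := by
    by_contra h
    push Not at h
    rcases eq_or_lt_of_le hc.2 with h1 | h1
    · have : c = b := by rw [hb, h1, hν]
      exact absurd (lt_of_le_of_lt hca hlt) (by rw [this]; exact lt_irrefl _)
    · have := hmid _ h1 h
      rw [hν] at this
      exact absurd hc.1 (not_lt.mpr this.le)
  -- the set to be paired up
  let A : Finset (Fin n) := univ.filter fun r => c ≤ r ∧ r ≤ a ∧ ν r < c
  have hcA : c ∉ A := by simp [A, hνc]
  obtain ⟨P, hPeven, hAP, hPA⟩ : ∃ P : Finset (Fin n), Even P.card ∧ A ⊆ P ∧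
      ∀ x ∈ P, x ∈ A ∨ (x = c ∧ A.Nonempty) := by
    by_cases hA : Even A.card
    · exact ⟨A, hA, Subset.rfl, fun x hx => Or.inl hx⟩
    · refine ⟨insert c A, ?_, subset_insert _ _, fun x hx => ?_⟩
      · rw [card_insert_of_notMem hcA]
        exact Nat.even_add_one.mpr hA
      · rcases mem_insert.mp hx with h | h
        · refine Or.inr ⟨h, ?_⟩
          rw [← card_pos]
          rcases Nat.eq_zero_or_pos A.card with h0 | h0
          · exact absurd (by rw [h0]; exact Even.zero) hA
          · exact h0
        · exact Or.inl h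
  obtain ⟨f, hf⟩ := exists_invol P hPeven
  have hPR : ∀ x ∈ P, c ≤ x ∧ x ≤ a := fun x hx => by
    rcases hPA x hx with h | h
    · simp only [A, mem_filter] at h
      exact ⟨h.2.1, h.2.2.1⟩
    · rw [h.1]; exact ⟨le_rfl, hca⟩
  let G := sepGraph ν f hν P hf l c a
  have hadj : ∀ u v, v ∈ nb G u ↔ u ≠ v ∧ ((u < c ∧ ¬ (u = l ∧ a < v ∧ c ≤ ν v)) ∨
      (v < c ∧ ¬ (v = l ∧ a < u ∧ c ≤ ν u)) ∨ v = ν u ∨ (u ∈ P ∧ v = f u)) := fun u v => mem_nb G u v
  have hcardS : (Iio c).card = c.val := by simp
  -- degrees
  have d0 : ∀ u, (nb G u).card ≤ n - 1 := fun u => by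
    have : nb G u ⊆ univ.erase u := fun v hv => by
      simp only [mem_erase, mem_univ, and_true]
      exact ((hadj u v).mp hv).1.symm
    simpa using card_le_card this
  have d1 : ∀ u, u < l → (nb G u).card = n - 1 := fun u hu => by
    have : nb G u = univ.erase u := by
      ext v
      rw [hadj]
      simp only [mem_erase, mem_univ, and_true]
      constructor
      · exact fun h => h.1.symm
      · exact fun h => ⟨h.symm, Or.inl ⟨hu.trans hlc', fun hh => absurd hh.1 hu.ne⟩⟩
    rw [this]; simp
  have d2 : a.val + 1 ≤ (nb G l).card := by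
    have hsub : insert b ((Iic a).erase l) ⊆ nb G l := by
      intro v hv
      rw [hadj]
      rcases mem_insert.mp hv with h | h
      · subst h
        refine ⟨(lt_of_lt_of_le hlc' (hca.trans hlt.le)).ne, Or.inl ⟨hlc', fun hh => ?_⟩⟩
        rw [hνb] at hh
        exact absurd hc.1 (not_lt.mpr hh.2.2)
      · rw [mem_erase, mem_Iic] at h
        exact ⟨h.1.symm, Or.inl ⟨hlc', fun hh => absurd h.2 (not_le.mpr hh.2.1)⟩⟩
    have h1 := card_le_card hsub
    rw [card_insert_of_notMem (by simp [hlt]), card_erase_of_mem (by simpa using hlc'.le.trans hca)]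
      at h1
    simpa using h1
  have dR : ∀ u, c ≤ u → u ≤ a → ∀ v, v ∈ nb G u ↔ v < c ∨ v = ν u ∨ (u ∈ P ∧ v = f u) := by
    intro u h1 h2 v
    rw [hadj]
    constructor
    · rintro ⟨_, h | h | h | h⟩
      · exact absurd h1 (not_le.mpr h.1)
      · exact Or.inl h.1
      · exact Or.inr (Or.inl h)
      · exact Or.inr (Or.inr h)
    · rintro (h | h | h)
      · exact ⟨(lt_of_lt_of_le h h1).ne', Or.inr (Or.inl ⟨h, fun hh => absurd h2 (not_le.mpr hh.2.1)⟩)⟩
      · exact ⟨by rw [h]; exact (hν' u).symm, Or.inr (Or.inr (Or.inl h))⟩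
      · exact ⟨by rw [h.2]; exact (hf u h.1).2.1.symm, Or.inr (Or.inr (Or.inr h))⟩
  have d3 : ∀ u, c < u → u ≤ a → (nb G u).card = c.val + 1 := fun u h1 h2 => by
    by_cases hu : ν u < c
    · have huA : u ∈ A := by simp [A, h1.le, h2, hu]
      have huP := hAP huA
      have : nb G u = insert (f u) (Iio c) := by
        ext v
        rw [dR u h1.le h2, mem_insert, mem_Iio]
        constructor
        · rintro (h | h | h)
          · exact Or.inr h
          · exact Or.inr (by rw [h]; exact hu)
          · exact Or.inl h.2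
        · rintro (h | h)
          · exact Or.inr (Or.inr ⟨huP, h⟩)
          · exact Or.inl h
      rw [this, card_insert_of_notMem (by simpa using (hPR _ (hf u huP).1).1), hcardS]
    · have huP : u ∉ P := fun h => by
        rcases hPA u h with h' | h'
        · simp only [A, mem_filter] at h'
          exact hu h'.2.2.2
        · exact absurd h'.1 h1.ne'
      have : nb G u = insert (ν u) (Iio c) := by
        ext v
        rw [dR u h1.le h2, mem_insert, mem_Iio]
        tauto
      rw [this, card_insert_of_notMem (by simpa using hu), hcardS]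
  have d4 : c.val + 1 ≤ (nb G c).card := by
    have : insert (ν c) (Iio c) ⊆ nb G c := by
      intro v hv
      rw [dR c le_rfl hca]
      rw [mem_insert, mem_Iio] at hv
      tauto
    have h1 := card_le_card this
    rwa [card_insert_of_notMem (by simpa using hνc), hcardS] at h1
  have d5 : (nb G c).card ≤ a.val + 1 := by
    by_cases hP : c ∈ P
    · have hAne : A.Nonempty := by
        rcases hPA c hP with h | h
        · exact absurd h hcA
        · exact h.2
      obtain ⟨r, hr⟩ := hAne
      have hrc : r ≠ c := fun h => hcA (h ▸ hr)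
      simp only [A, mem_filter] at hr
      have h1 : c < r := lt_of_le_of_ne hr.2.1 hrc.symm
      have h2 : c.val + 1 ≤ a.val := by
        have := lt_of_lt_of_le h1 hr.2.2.1
        rw [Fin.lt_def] at this; omega
      have : nb G c ⊆ insert (f c) (insert (ν c) (Iio c)) := by
        intro v hv
        rw [dR c le_rfl hca] at hv
        simp only [mem_insert, mem_Iio]
        tauto
      have h3 := card_le_card this
      have h4 := card_insert_le (f c) (insert (ν c) (Iio c))
      have h5 := card_insert_le (ν c) (Iio c)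
      omega
    · have : nb G c ⊆ insert (ν c) (Iio c) := by
        intro v hv
        rw [dR c le_rfl hca] at hv
        simp only [mem_insert, mem_Iio]
        tauto
      have h3 := card_le_card this
      have h5 := card_insert_le (ν c) (Iio c)
      have : c.val ≤ a.val := hca
      omega
  have dT : ∀ u, a < u → ∀ v, v ∈ nb G u ↔ (v < c ∧ ¬ (v = l ∧ c ≤ ν u)) ∨ v = ν u := by
    intro u h1 v
    have huP : u ∉ P := fun h => absurd (hPR u h).2 (not_le.mpr h1)
    rw [hadj]
    constructor
    · rintro ⟨_, h | h | h | h⟩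
      · exact absurd (hca.trans h1.le) (not_le.mpr h.1)
      · exact Or.inl ⟨h.1, fun hh => h.2 ⟨hh.1, h1, hh.2⟩⟩
      · exact Or.inr h
      · exact absurd h.1 huP
    · rintro (h | h)
      · exact ⟨(lt_of_lt_of_le h.1 (hca.trans h1.le)).ne',
          Or.inr (Or.inl ⟨h.1, fun hh => h.2 ⟨hh.1, hh.2.2⟩⟩)⟩
      · exact ⟨by rw [h]; exact (hν' u).symm, Or.inr (Or.inr (Or.inl h))⟩
  have d6 : ∀ u, a < u → (nb G u).card = c.val := fun u h1 => by
    by_cases hu : ν u < c
    · have : nb G u = Iio c := by
        ext v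
        rw [dT u h1, mem_Iio]
        constructor
        · rintro (h | h)
          · exact h.1
          · rw [h]; exact hu
        · exact fun h => Or.inl ⟨h, fun hh => absurd hu (not_lt.mpr hh.2)⟩
      rw [this, hcardS]
    · have : nb G u = insert (ν u) ((Iio c).erase l) := by
        ext v
        rw [dT u h1, mem_insert, mem_erase, mem_Iio]
        have := not_lt.mp hu
        tauto
      rw [this, card_insert_of_notMem (by simp [not_lt.mp hu]),
        card_erase_of_mem (by simpa using hlc'), hcardS]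
      omega
  refine ⟨G, fun u => ⟨(hν' u).symm, Or.inr (Or.inr (Or.inl rfl))⟩, ?_, ?_⟩
  · intro u v huv
    rcases eq_or_lt_of_le huv with h | huv
    · rw [h]
    have hca' : c.val ≤ a.val := hca
    have hv : c ≤ v → (nb G v).card ≤ a.val + 1 ∧ (c < v → (nb G v).card ≤ c.val + 1) ∧
        (a < v → (nb G v).card ≤ c.val) := fun h => by
      rcases eq_or_lt_of_le h with h1 | h1
      · subst h1
        exact ⟨d5, fun h => absurd h (lt_irrefl _), fun h => absurd hca (not_le.mpr h)⟩
      · by_cases h2 : v ≤ a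
        · have := d3 v h1 h2
          exact ⟨by omega, fun _ => by omega, fun h => absurd h2 (not_le.mpr h)⟩
        · have := d6 v (not_le.mp h2)
          exact ⟨by omega, fun _ => by omega, fun _ => by omega⟩
    show (nb G v).card ≤ (nb G u).card
    rcases lt_trichotomy u l with h | h | h
    · rw [d1 u h]; exact d0 v
    · have : c ≤ v := by
        rw [Fin.le_def]; rw [Fin.lt_def, h] at huv; omega
      rw [h]
      exact (hv this).1.trans d2
    · have hcu : c ≤ u := by
        rw [Fin.le_def]; rw [Fin.lt_def] at h; omega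
      have hcv : c < v := lt_of_le_of_lt hcu huv
      rcases eq_or_lt_of_le hcu with h1 | h1
      · rw [← h1]
        exact ((hv hcv.le).2.1 hcv).trans d4
      · by_cases h2 : u ≤ a
        · rw [d3 u h1 h2]
          exact (hv hcv.le).2.1 hcv
        · rw [d6 u (not_le.mp h2)]
          exact (hv hcv.le).2.2 ((not_le.mp h2).trans huv)
  · intro G' hG' hdeg
    have c1 := cancel G (Iio c) (Ioi a)
    have c2 := cancel G' (Iio c) (Ioi a)
    simp only [hdeg] at c2
    have e1 : ∑ s ∈ Iio c, (nb G' s \ Ioi a).card ≤ ∑ s ∈ Iio c, (nb G s \ Ioi a).card := by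
      refine sum_le_sum fun s hs => card_le_card fun v hv => ?_
      rw [mem_sdiff, mem_nb, mem_Ioi] at hv
      rw [mem_sdiff, hadj, mem_Ioi]
      exact ⟨⟨hv.1.ne, Or.inl ⟨mem_Iio.mp hs, fun hh => hv.2 hh.2.1⟩⟩, hv.2⟩
    have e2 : ∑ t ∈ Ioi a, (nb G t \ Iio c).card < ∑ t ∈ Ioi a, (nb G' t \ Iio c).card := by
      have hle : ∀ t, a < t → (nb G t \ Iio c) ⊆ (if c ≤ ν t then {ν t} else ∅) := by
        intro t ht v hv
        rw [mem_sdiff, dT t ht, mem_Iio] at hv
        rcases hv with ⟨h | h, h'⟩
        · exact absurd h.1 h'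
        · rw [h] at h'
          rw [if_pos (not_lt.mp h'), h]; simp
      have hge : ∀ t, c ≤ m t → 1 ≤ (nb G' t \ Iio c).card := fun t ht =>
        card_pos.mpr ⟨m t, by rw [mem_sdiff, mem_nb, mem_Iio]; exact ⟨hG' t, not_lt.mpr ht⟩⟩
      refine sum_lt_sum (fun t ht => ?_) ⟨b, mem_Ioi.mpr hlt, ?_⟩
      · have ht' := mem_Ioi.mp ht
        have h1 := card_le_card (hle t ht')
        by_cases h : c ≤ ν t
        · rw [if_pos h, card_singleton] at h1
          refine h1.trans (hge t ?_)
          by_contra h2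
          push Not at h2
          have h3 : m t ≠ i := fun h3 => by
            have : t = a := by rw [ha, ← h3, hm]
            exact absurd ht' (by rw [this]; exact lt_irrefl _)
          have h4 := hagree _ h2 h3
          rw [hm] at h4
          have : ν t = m t := by rw [h4, hν, ← h4]
          rw [this] at h
          exact absurd h2 (not_lt.mpr h)
        · rw [if_neg h, card_empty] at h1
          omega
      · have h1 := card_le_card (hle b hlt)
        rw [if_neg (by rw [hνb]; exact not_le.mpr hc.1), card_empty] at h1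
        have : c ≤ m b := by
          by_contra h2
          push Not at h2
          have h3 : m b ≠ i := fun h3 => by
            have : b = a := by rw [ha, ← h3, hm]
            exact absurd hlt (by rw [this]; exact lt_irrefl _)
          have h4 := hagree _ h2 h3
          rw [hm] at h4
          apply h3
          rw [← hνb]
          conv_rhs => rw [h4, hν]
        have := hge b this
        omega
    omega

end Pool.Agent.P.MP_cd59f5_co
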